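import Pool.Agent.Lib.MP_81c197_nt.OP.Main

/-!
# MP_81c197_nt, OP: the count, case `λ(c + a) = -1`
-/

set_option autoImplicit false

namespace Pool.Agent.Lib.MP81c197.OP

open Finset
open scoped Classical
open Pool.Agent.Lib.MP3efbeb.Odd
open Pool.Agent.Lib.MP81c197

theorem core_a (Q C2 : ℕ) (hQ : 1 ≤ Q) : ∃ C q0 : ℕ, ∀ q : ℕ, q0 ≤ q → ∀ (S : Finset ℕ) (a b c : ℕ),
    2 ∣ a → 6 ∣ b → 1 ≤ a → 1 ≤ b → (∀ p : ℕ, p.Prime → p ∣ a * b → p ≤ 3) →
    a * b * 210 ∣ Q → a * b ∈ S → a ∈ S → b ∈ S → 2 ≤ c → c ≤ q ^ C2 → Rough q c →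
    Rough q (c + a) → lam c = -1 → lam (c + a) = -1 → ∀ e : ℤ, e = 1 ∨ e = -1 → ∀ x : ℕ,
    q ^ C ≤ x → x ≤ q ^ C * (goodSet2 S e q x).card := by
  obtain ⟨C1, q1, hsv⟩ := main_sv 5
  obtain ⟨Y0, hY0⟩ := specPRI Q hQ
  set C3 := 2 * C2 + 8 with hC3
  refine ⟨C1 + C3 + 2, q1 + Y0 + Q + 6000, ?_⟩
  intro q hq S a b c ha hb ha1 hb1 hsm habQ hS1 hS2 hS3 hc2 hcq hcr hcar lc lca e he x hx
  -- the prime `r`
  obtain ⟨r, hrp, hrq, hr2q, hrmod⟩ := hY0 q (by omega)
  have hrr : Rough q r := by
    intro p hp hd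
    have := (Nat.prime_dvd_prime_iff_eq hp hrp).1 hd
    omega
  have hr1 : 1 < r := hrp.one_lt
  obtain ⟨ρ, hρ⟩ : ∃ ρ : ℕ, r = a * b * (210 * ρ) + 1 := by
    have h1 : Q ∣ r - 1 := (Nat.modEq_iff_dvd' hr1.le).1 (by
      unfold Nat.ModEq; exact hrmod.symm)
    obtain ⟨ρ, hρ⟩ := habQ.trans h1
    exact ⟨ρ, by rw [← mul_assoc, ← hρ]; omega⟩
  have hab1 : 1 ≤ a * b := Nat.mul_pos ha1 hb1
  have hρr : 210 * ρ ≤ r := by
    have h1 : 1 * (210 * ρ) ≤ a * b * (210 * ρ) := Nat.mul_le_mul_right _ hab1
    omega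
  have lr : lam r = -1 := by
    unfold lam
    rw [Nat.primeFactorsList_prime hrp]
    simp
  -- residues
  obtain ⟨e0, he0⟩ := exists_e210 (a * b) (b * (a + c)) (b * (a + c)) (hb.mul_left a)
    (hb.mul_right _) (hb.mul_right _)
  have hcopab : Nat.Coprime (a * b) c := by
    refine Nat.Coprime.symm (Nat.coprime_of_dvd ?_)
    intro p hp hpc hpab
    have h1 := hcr p hp hpc
    have h2 := hsm p hp hpab
    omega
  obtain ⟨m0, l0, hm0lt, hm0e, hl0⟩ := exists_start a b c e0 hc2 (cop210 (by omega) hcr) hcopab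
  -- the forms
  set F : Finset (ℕ × ℕ) := {(210 * c, m0), (210 * (a * b), l0), (210 * (b * (a + c)), l0 + b * m0),
    (r * (210 * c), r * m0 + 210 * ρ),
    (r * (210 * (b * (a + c))), r * (l0 + b * m0) + b * (210 * ρ))} with hF
  have hFcard : F.card ≤ 5 := Finset.card_le_five
  have he6 := he0 m0 hm0e
  have hl0' : c * (l0 + b * m0) = 1 + b * (a + c) * m0 := by
    rw [mul_add, ← hl0]; ring
  have hpr : ∀ p : ℕ, p.Prime → p ∣ r → p = r := fun p hp hd =>
    (Nat.prime_dvd_prime_iff_eq hp hrp).1 hd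
  have hF2 : ∀ f ∈ F, ∀ p : ℕ, p.Prime → (p ≤ 2 * 5 → ∀ t : ℕ, ¬ p ∣ f.1 * t + f.2) ∧
      (2 * 5 < p → p < q → ¬ p ∣ f.1) := by
    intro f hf p hp
    have hf' : f = (210 * c, m0) ∨ f = (210 * (a * b), l0) ∨
        f = (210 * (b * (a + c)), l0 + b * m0) ∨ f = (r * (210 * c), r * m0 + 210 * ρ) ∨
        f = (r * (210 * (b * (a + c))), r * (l0 + b * m0) + b * (210 * ρ)) := by
      simpa [hF] using hf
    constructor
    · intro hp10 t hd
      obtain ⟨g1, g2, g3, -⟩ := he6 p hp hp10
      have hp210 : p ∣ 210 := p_dvd_210 hp hp10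
      have g2' : ¬ p ∣ l0 := fun h => g2 (by rw [hl0]; exact h.mul_left _)
      have g3' : ¬ p ∣ l0 + b * m0 := fun h => g3 (by rw [← hl0']; exact h.mul_left _)
      have hnr : ¬ p ∣ r := fun h => by
        have := hpr p hp h
        omega
      rcases hf' with rfl | rfl | rfl | rfl | rfl
      · simp only at hd
        rw [mul_assoc] at hd
        exact g1 ((Nat.dvd_add_right (hp210.mul_right _)).1 hd)
      · simp only at hd
        rw [mul_assoc 210] at hd
        exact g2' ((Nat.dvd_add_right (hp210.mul_right _)).1 hd)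
      · simp only at hd
        rw [mul_assoc 210] at hd
        exact g3' ((Nat.dvd_add_right (hp210.mul_right _)).1 hd)
      · simp only at hd
        have e1 : r * (210 * c) * t + (r * m0 + 210 * ρ) = 210 * (r * c * t + ρ) + r * m0 := by ring
        rw [e1] at hd
        rcases (Nat.Prime.dvd_mul hp).1 ((Nat.dvd_add_right (hp210.mul_right _)).1 hd) with h | h
        · exact hnr h
        · exact g1 h
      · simp only at hd
        have e1 : r * (210 * (b * (a + c))) * t + (r * (l0 + b * m0) + b * (210 * ρ)) =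
            210 * (r * (b * (a + c)) * t + b * ρ) + r * (l0 + b * m0) := by ring
        rw [e1] at hd
        rcases (Nat.Prime.dvd_mul hp).1 ((Nat.dvd_add_right (hp210.mul_right _)).1 hd) with h | h
        · exact hnr h
        · exact g3' h
    · intro hp10 hpq hd
      have hp210 : ¬ p ∣ 210 := not_p_dvd_210 hp (by omega)
      have hnr : ¬ p ∣ r := fun h => by
        have := hpr p hp h
        omega
      have hnc : ¬ p ∣ c := fun h => by
        have := hcr p hp h
        omega
      have hnca : ¬ p ∣ a + c := fun h => by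
        rw [add_comm] at h
        have := hcar p hp h
        omega
      have hnab : ¬ p ∣ a * b := fun h => by
        have := hsm p hp h
        omega
      have hnb : ¬ p ∣ b := fun h => hnab (h.mul_left a)
      have hnbac : ¬ p ∣ 210 * (b * (a + c)) := fun h => by
        rcases (Nat.Prime.dvd_mul hp).1 h with h | h
        · exact hp210 h
        · rcases (Nat.Prime.dvd_mul hp).1 h with h | h
          · exact hnb h
          · exact hnca h
      have hnc2 : ¬ p ∣ 210 * c := fun h => by
        rcases (Nat.Prime.dvd_mul hp).1 h with h | h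
        · exact hp210 h
        · exact hnc h
      rcases hf' with rfl | rfl | rfl | rfl | rfl
      · exact hnc2 hd
      · simp only at hd
        rcases (Nat.Prime.dvd_mul hp).1 hd with h | h
        · exact hp210 h
        · exact hnab h
      · exact hnbac hd
      · simp only at hd
        rcases (Nat.Prime.dvd_mul hp).1 hd with h | h
        · exact hnr h
        · exact hnc2 h
      · simp only at hd
        rcases (Nat.Prime.dvd_mul hp).1 hd with h | h
        · exact hnr h
        · exact hnbac h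
  -- the parameters
  have hq1 : 1 ≤ q := by omega
  have hqC3 : 0 < q ^ C3 := pow_pos (by omega) _
  set T := x / q ^ C3 with hT
  have hT1 : q ^ C1 ≤ T := by
    rw [hT, Nat.le_div_iff_mul_le hqC3, ← pow_add]
    exact (Nat.pow_le_pow_right hq1 (by omega)).trans hx
  have hTpos : 1 ≤ T := le_trans (Nat.one_le_pow _ _ (by omega)) hT1
  have hTx : T * q ^ C3 ≤ x := Nat.div_mul_le_self _ _
  have hxT : x < 2 * T * q ^ C3 := by
    have h1 : x < q ^ C3 * (T + 1) := Nat.lt_mul_div_succ x hqC3
    calc x < q ^ C3 * (T + 1) := h1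
      _ ≤ q ^ C3 * (2 * T) := Nat.mul_le_mul_left _ (by omega)
      _ = 2 * T * q ^ C3 := by ring
  have hcount := hsv q (by omega) F hFcard hF2 T hT1
  -- the forms as functions
  set Mf : ℕ → ℕ := fun t => 210 * c * t + m0 with hMf
  set Lf : ℕ → ℕ := fun t => 210 * (a * b) * t + l0 with hLf
  have hm0pos : 1 ≤ m0 := by
    rcases Nat.eq_zero_or_pos m0 with h | h
    · exact absurd (by rw [h]; exact dvd_zero 2) (he6 2 Nat.prime_two (by norm_num)).1
    · exact h
  have hl0pos : 1 ≤ l0 := by
    rcases Nat.eq_zero_or_pos l0 with h | h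
    · rw [h, mul_zero] at hl0
      omega
    · exact h
  have hl0le : l0 ≤ 210 * (a * b) + 1 := by
    have h1 : c * l0 ≤ c * (210 * (a * b) + 1) := by
      rw [← hl0]
      have h2 : a * b * m0 ≤ a * b * (210 * c) := Nat.mul_le_mul_left _ hm0lt.le
      calc 1 + a * b * m0 ≤ c + a * b * (210 * c) := by omega
        _ = c * (210 * (a * b) + 1) := by ring
    exact Nat.le_of_mul_le_mul_left h1 (by omega)
  have hcL : ∀ t, c * Lf t = a * b * Mf t + 1 := by
    intro t
    simp only [hMf, hLf]
    rw [mul_add, ← hl0]; ring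
  set M2 : ℕ → ℕ := fun t => r * Mf t + 210 * ρ with hM2
  have hcL2 : ∀ t, c * (r * Lf t) = a * b * M2 t + 1 := by
    intro t
    have h1 : c * (r * Lf t) = r * (a * b * Mf t) + r := by
      rw [mul_left_comm, hcL]; ring
    have h2 : a * b * M2 t + 1 = r * (a * b * Mf t) + (a * b * (210 * ρ) + 1) := by
      simp only [hM2]; ring
    rw [h1, h2, ← hρ]
  -- sizes
  have hLpos : ∀ t, 1 ≤ Lf t := fun t => by simp only [hLf]; omega
  have hMpos : ∀ t, 1 ≤ Mf t := fun t => by simp only [hMf]; omega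
  have hM2pos : ∀ t, 1 ≤ M2 t := fun t => by
    simp only [hM2]
    have : 1 * 1 ≤ r * Mf t := Nat.mul_le_mul hr1.le (hMpos t)
    omega
  have habQ' : a * b * 210 ≤ Q := Nat.le_of_dvd (by omega) habQ
  have haq : a ≤ q := by
    have : a * 1 ≤ a * b := Nat.mul_le_mul_left _ hb1
    omega
  have hbq : b ≤ q := by
    have : 1 * b ≤ a * b := Nat.mul_le_mul_right _ ha1
    omega
  have habq : a * b ≤ q := by omega
  have hbig : ∀ t, t < 2 * T → (c + a) * (r * Lf t + b * M2 t) ≤ x := by
    intro t ht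
    have hqC2 : q ≤ q * q ^ C2 := Nat.le_mul_of_pos_right q (pow_pos (by omega) _)
    set QQ := q * q ^ C2 with hQQ
    have hcQ1 : c ≤ QQ := le_trans hcq (Nat.le_mul_of_pos_left _ (by omega))
    have hcQ : c + a ≤ 2 * QQ := by omega
    have hLle : Lf t ≤ 631 * q * T := by
      simp only [hLf]
      calc 210 * (a * b) * t + l0 ≤ 210 * (a * b) * (2 * T) + (210 * (a * b) + 1) :=
            Nat.add_le_add (Nat.mul_le_mul_left _ ht.le) hl0le
        _ ≤ 210 * (a * b) * (2 * T) + (210 * (a * b) + a * b) := by omega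
        _ = (420 * T + 211) * (a * b) := by ring
        _ ≤ (631 * T) * q := Nat.mul_le_mul (by omega) habq
        _ = 631 * q * T := by ring
    have hMle : Mf t ≤ 630 * QQ * T := by
      simp only [hMf]
      calc 210 * c * t + m0 ≤ 210 * c * (2 * T) + 210 * c :=
            Nat.add_le_add (Nat.mul_le_mul_left _ ht.le) hm0lt.le
        _ = (420 * T + 210) * c := by ring
        _ ≤ (630 * T) * QQ := Nat.mul_le_mul (by omega) hcQ1
        _ = 630 * QQ * T := by ring
    have hQQT : 1 ≤ QQ * T := Nat.mul_pos (by omega) hTpos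
    have hM2le : M2 t ≤ r * (631 * QQ * T) := by
      simp only [hM2]
      calc r * Mf t + 210 * ρ ≤ r * (630 * QQ * T) + r * (QQ * T) :=
            Nat.add_le_add (Nat.mul_le_mul_left _ hMle)
              (hρr.trans (Nat.le_mul_of_pos_right r hQQT))
        _ = r * (631 * QQ * T) := by ring
    have hNle : r * Lf t + b * M2 t ≤ r * (1262 * q * QQ * T) := by
      calc r * Lf t + b * M2 t ≤ r * (631 * q * T) + q * (r * (631 * QQ * T)) :=
            Nat.add_le_add (Nat.mul_le_mul_left _ hLle) (Nat.mul_le_mul hbq hM2le)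
        _ ≤ r * (631 * (q * QQ) * T) + q * (r * (631 * QQ * T)) := by
            refine Nat.add_le_add_right (Nat.mul_le_mul_left _ (Nat.mul_le_mul_right _
              (Nat.mul_le_mul_left _ ?_))) _
            exact Nat.le_mul_of_pos_right q (by omega)
        _ = r * (1262 * q * QQ * T) := by ring
    calc (c + a) * (r * Lf t + b * M2 t) ≤ (2 * QQ) * (r * (1262 * q * QQ * T)) :=
          Nat.mul_le_mul hcQ hNle
      _ ≤ (2 * QQ) * ((2 * q) * (1262 * q * QQ * T)) :=
          Nat.mul_le_mul_left _ (Nat.mul_le_mul_right _ hr2q)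
      _ = 5048 * (q * q * (QQ * QQ)) * T := by ring
      _ ≤ (q * q) * (q * q * (QQ * QQ)) * T := by
          refine Nat.mul_le_mul_right _ (Nat.mul_le_mul_right _ ?_)
          have h6000 : 6000 ≤ q := by omega
          nlinarith
      _ = q ^ (2 * C2 + 6) * T := by rw [hQQ]; ring
      _ ≤ q ^ C3 * T := Nat.mul_le_mul_right _ (Nat.pow_le_pow_right hq1 (by omega))
      _ = T * q ^ C3 := by ring
      _ ≤ x := hTx
  have hbig1 : ∀ t, t < 2 * T → (c + a) * (Lf t + b * Mf t) ≤ x := by
    intro t ht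
    refine le_trans (Nat.mul_le_mul_left _ (Nat.add_le_add ?_ (Nat.mul_le_mul_left _ ?_)))
      (hbig t ht)
    · exact Nat.le_mul_of_pos_left _ (by omega)
    · simp only [hM2]
      exact le_trans (Nat.le_mul_of_pos_left _ (by omega)) (Nat.le_add_right _ _)
  -- the good values of `t`
  set G := (Ico T (2 * T)).filter (fun t => ∀ f ∈ F, Rough q (f.1 * t + f.2)) with hG
  set S' := goodSet2 S e q x with hS'
  set nn : Fin 6 → ℕ → ℕ := ![fun t => c * Lf t, fun t => (c + a) * Lf t,
    fun t => c * (Lf t + b * Mf t), fun t => c * (r * Lf t), fun t => (c + a) * (r * Lf t),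
    fun t => c * (r * Lf t + b * M2 t)] with hnn
  have hmonoL : StrictMono Lf := by
    intro s t hst
    simp only [hLf]
    have : 210 * (a * b) * s < 210 * (a * b) * t := Nat.mul_lt_mul_of_pos_left hst (by omega)
    omega
  have hmonoM : StrictMono Mf := by
    intro s t hst
    simp only [hMf]
    have : 210 * c * s < 210 * c * t := Nat.mul_lt_mul_of_pos_left hst (by omega)
    omega
  have hmonoM2 : StrictMono M2 := by
    intro s t hst
    simp only [hM2]
    have : r * Mf s < r * Mf t := Nat.mul_lt_mul_of_pos_left (hmonoM hst) (by omega)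
    omega
  have hinj : ∀ i : Fin 6, Function.Injective (nn i) := by
    intro i
    have h0 : StrictMono (nn i) := by
      intro s t hst
      have hL := hmonoL hst
      have hM := hmonoM hst
      have hM2' := hmonoM2 hst
      have hrL : r * Lf s < r * Lf t := Nat.mul_lt_mul_of_pos_left hL (by omega)
      fin_cases i
      · exact Nat.mul_lt_mul_of_pos_left hL (by omega)
      · exact Nat.mul_lt_mul_of_pos_left hL (by omega)
      · exact Nat.mul_lt_mul_of_pos_left
          (add_lt_add_of_lt_of_le hL (Nat.mul_le_mul_left _ hM.le)) (by omega)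
      · exact Nat.mul_lt_mul_of_pos_left hrL (by omega)
      · exact Nat.mul_lt_mul_of_pos_left hrL (by omega)
      · exact Nat.mul_lt_mul_of_pos_left
          (add_lt_add_of_lt_of_le hrL (Nat.mul_le_mul_left _ hM2'.le)) (by omega)
    exact h0.injective
  have hex : ∀ t ∈ G, ∃ i : Fin 6, nn i t ∈ S' := by
    intro t ht
    rw [hG, Finset.mem_filter, Finset.mem_Ico] at ht
    have r1 := ht.2 (210 * c, m0) (by simp [hF])
    have r2 := ht.2 (210 * (a * b), l0) (by simp [hF])
    have r3 := ht.2 (210 * (b * (a + c)), l0 + b * m0) (by simp [hF])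
    have r4 := ht.2 (r * (210 * c), r * m0 + 210 * ρ) (by simp [hF])
    have r5 := ht.2 (r * (210 * (b * (a + c))), r * (l0 + b * m0) + b * (210 * ρ)) (by simp [hF])
    have ht2 := ht.1.2
    have e3 : Lf t + b * Mf t = 210 * (b * (a + c)) * t + (l0 + b * m0) := by
      simp only [hMf, hLf]; ring
    have e4 : M2 t = r * (210 * c) * t + (r * m0 + 210 * ρ) := by
      simp only [hM2, hMf]; ring
    have e5 : r * Lf t + b * M2 t =
        r * (210 * (b * (a + c))) * t + (r * (l0 + b * m0) + b * (210 * ρ)) := by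
      simp only [hM2, hMf, hLf]; ring
    simp only at r3 r4 r5
    rw [← e3] at r3
    rw [← e4] at r4
    rw [← e5] at r5
    by_cases hs : lam (Lf t) = -e
    · rcases triple_mem hS1 hS2 hS3 (hLpos t) (hMpos t) (by omega) (hcL t) hcr hcar r2 r1 r3 lc
        he (Or.inl ⟨lca, hs⟩) (hbig1 t ht2) with h | h | h
      · exact ⟨0, h⟩
      · exact ⟨1, h⟩
      · exact ⟨2, h⟩
    · have hs2 : lam (r * Lf t) = -e := by
        rw [lam_mul (by omega) (by have := hLpos t; omega), lr]
        rcases lam_or (Lf t) with h | h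
        · rcases he with h' | h'
          · rw [h, h']; norm_num
          · exact absurd (by rw [h, h']; norm_num) hs
        · rcases he with h' | h'
          · exact absurd (by rw [h, h']) hs
          · rw [h, h']; norm_num
      rcases triple_mem hS1 hS2 hS3 (Nat.mul_pos (by omega) (hLpos t)) (hM2pos t) (by omega)
        (hcL2 t) hcr hcar (rough_mul hrr r2) r4 r5 lc he (Or.inl ⟨lca, hs2⟩) (hbig t ht2)
        with h | h | h
      · exact ⟨3, h⟩
      · exact ⟨4, h⟩
      · exact ⟨5, h⟩
  have hG6 : G.card ≤ 6 * S'.card := count_six nn hinj hex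
  calc x ≤ 2 * T * q ^ C3 := hxT.le
    _ ≤ 2 * (q * (6 * S'.card)) * q ^ C3 := by
        refine Nat.mul_le_mul_right _ (Nat.mul_le_mul_left _ ?_)
        exact hcount.trans (Nat.mul_le_mul_left _ hG6)
    _ = 12 * (q * q ^ C3 * S'.card) := by ring
    _ ≤ q * (q * q ^ C3 * S'.card) := Nat.mul_le_mul_right _ (by omega)
    _ = q ^ (C3 + 2) * S'.card := by ring
    _ ≤ q ^ (C1 + C3 + 2) * S'.card :=
        Nat.mul_le_mul_right _ (Nat.pow_le_pow_right hq1 (by omega))

end Pool.Agent.Lib.MP81c197.OP
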