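import Pool.Agent.Lib.MP_81c197_nt.OP.Main

/-!
# MP_81c197_nt, OP: the count, case `λ(c + a) = 1`
-/

set_option autoImplicit false

namespace Pool.Agent.Lib.MP81c197.OP

open Finset
open scoped Classical
open Pool.Agent.Lib.MP3efbeb.Odd
open Pool.Agent.Lib.MP81c197

theorem core_b (Q C2 : ℕ) : ∃ C q0 : ℕ, ∀ q : ℕ, q0 ≤ q → ∀ (S : Finset ℕ) (a b c1 c2 : ℕ),
    2 ∣ a → 6 ∣ b → 1 ≤ a → 1 ≤ b → (∀ p : ℕ, p.Prime → p ∣ a * b → p ≤ 3) → a * b ≤ Q →
    a * b ∈ S → a ∈ S → b ∈ S → 2 ≤ c1 → c1 ≤ q ^ C2 → 2 ≤ c2 → c2 ≤ q ^ C2 → Nat.Coprime c1 c2 →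
    (∀ p : ℕ, p.Prime → p ∣ c2 → 2 * q < p) → Rough q c1 → Rough q c2 → Rough q (c1 + a) →
    Rough q (c2 + a) → lam c1 = -1 → lam c2 = -1 → lam (c1 + a) = 1 → lam (c2 + a) = 1 →
    ∀ e : ℤ, e = 1 ∨ e = -1 → ∀ x : ℕ, q ^ C ≤ x → x ≤ q ^ C * (goodSet2 S e q x).card := by
  obtain ⟨C1, q1, hsv⟩ := main_sv 5
  obtain ⟨Y0, hY0⟩ := specPRI 210 (by norm_num)
  set C3 := 3 * C2 + 8 with hC3
  refine ⟨C1 + C3 + 2, q1 + Y0 + Q + 6000, ?_⟩
  intro q hq S a b c1 c2 ha hb ha1 hb1 hsm habQ hS1 hS2 hS3 hc12 hc1q hc22 hc2q hcc hc2r r1 r2 r1a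
    r2a lc1 lc2 lc1a lc2a e he x hx
  -- the prime `r`
  obtain ⟨r, hrp, hrq, hr2q, hrmod⟩ := hY0 q (by omega)
  have hrr : Rough q r := by
    intro p hp hd
    have := (Nat.prime_dvd_prime_iff_eq hp hrp).1 hd
    omega
  have hr1 : 1 < r := hrp.one_lt
  have hab1 : 1 ≤ a * b := Nat.mul_pos ha1 hb1
  have lr : lam r = -1 := by
    unfold lam
    rw [Nat.primeFactorsList_prime hrp]
    simp
  -- residues
  obtain ⟨e0, he0⟩ := exists_e210 (a * b) (b * (a + c1)) (b * (a + c2)) (hb.mul_left a)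
    (hb.mul_right _) (hb.mul_right _)
  have hcopab : ∀ c : ℕ, Rough q c → Nat.Coprime (a * b) c := by
    intro c hc
    refine Nat.Coprime.symm (Nat.coprime_of_dvd ?_)
    intro p hp hpc hpab
    have h1 := hc p hp hpc
    have h2 := hsm p hp hpab
    omega
  have hcoprc : Nat.Coprime r c2 := by
    refine (Nat.Prime.coprime_iff_not_dvd hrp).2 ?_
    intro h
    have := hc2r r hrp h
    omega
  obtain ⟨m0, l0, l1, hm0lt, hm0e, hl0, hl1⟩ := exists_start2 (a * b) (a * b * r) c1 c2 e0 hc12 hc22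
    (cop210 (by omega) r1) (cop210 (by omega) r2) hcc (hcopab c1 r1)
    (Nat.Coprime.mul_left (hcopab c2 r2) hcoprc)
  -- the forms
  set F : Finset (ℕ × ℕ) := {(210 * (c1 * c2), m0), (210 * (a * b * c2), l0),
    (210 * (b * c2 * (a + c1)), l0 + b * m0), (210 * (a * b * r * c1), l1),
    (210 * (b * r * c1 * (a + c2)), l1 + b * (r * m0))} with hF
  have hFcard : F.card ≤ 5 := Finset.card_le_five
  have he6 := he0 m0 hm0e
  have hrm0 : (r * m0) % 210 = e0 % 210 := by
    rw [Nat.mul_mod, hrmod, hm0e]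
    norm_num
  have he6r := he0 (r * m0) hrm0
  have hl0' : c1 * (l0 + b * m0) = 1 + b * (a + c1) * m0 := by
    rw [mul_add, ← hl0]; ring
  have hl1r : c2 * l1 = 1 + a * b * (r * m0) := by
    rw [← hl1]; ring
  have hl1' : c2 * (l1 + b * (r * m0)) = 1 + b * (a + c2) * (r * m0) := by
    rw [mul_add, hl1r]; ring
  have hpr : ∀ p : ℕ, p.Prime → p ∣ r → p = r := fun p hp hd =>
    (Nat.prime_dvd_prime_iff_eq hp hrp).1 hd
  have hF2 : ∀ f ∈ F, ∀ p : ℕ, p.Prime → (p ≤ 2 * 5 → ∀ t : ℕ, ¬ p ∣ f.1 * t + f.2) ∧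
      (2 * 5 < p → p < q → ¬ p ∣ f.1) := by
    intro f hf p hp
    have hf' : f = (210 * (c1 * c2), m0) ∨ f = (210 * (a * b * c2), l0) ∨
        f = (210 * (b * c2 * (a + c1)), l0 + b * m0) ∨ f = (210 * (a * b * r * c1), l1) ∨
        f = (210 * (b * r * c1 * (a + c2)), l1 + b * (r * m0)) := by
      simpa [hF] using hf
    constructor
    · intro hp10 t hd
      obtain ⟨g1, g2, g3, g4⟩ := he6 p hp hp10
      obtain ⟨g1r, g2r, g3r, g4r⟩ := he6r p hp hp10
      have hp210 : p ∣ 210 := p_dvd_210 hp hp10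
      have k2 : ¬ p ∣ l0 := fun h => g2 (by rw [hl0]; exact h.mul_left _)
      have k3 : ¬ p ∣ l0 + b * m0 := fun h => g3 (by rw [← hl0']; exact h.mul_left _)
      have k4 : ¬ p ∣ l1 := fun h => g2r (by rw [← hl1r]; exact h.mul_left _)
      have k5 : ¬ p ∣ l1 + b * (r * m0) := fun h => g4r (by rw [← hl1']; exact h.mul_left _)
      have key : ∀ u v : ℕ, ¬ p ∣ v → ¬ p ∣ 210 * u * t + v := by
        intro u v hv hd'
        rw [mul_assoc] at hd'
        exact hv ((Nat.dvd_add_right (hp210.mul_right _)).1 hd')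
      rcases hf' with rfl | rfl | rfl | rfl | rfl
      · exact key _ _ g1 hd
      · exact key _ _ k2 hd
      · exact key _ _ k3 hd
      · exact key _ _ k4 hd
      · exact key _ _ k5 hd
    · intro hp10 hpq
      have hp210 : ¬ p ∣ 210 := not_p_dvd_210 hp (by omega)
      have hnr : ¬ p ∣ r := fun h => by
        have := hpr p hp h
        omega
      have hrough : ∀ n : ℕ, Rough q n → ¬ p ∣ n := fun n hn h => by
        have := hn p hp h
        omega
      have hnab : ¬ p ∣ a * b := fun h => by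
        have := hsm p hp h
        omega
      have hnb : ¬ p ∣ b := fun h => hnab (h.mul_left a)
      have hnc1 := hrough c1 r1
      have hnc2 := hrough c2 r2
      have hnc1a : ¬ p ∣ a + c1 := by
        rw [add_comm]
        exact hrough _ r1a
      have hnc2a : ¬ p ∣ a + c2 := by
        rw [add_comm]
        exact hrough _ r2a
      have nd : ∀ u v : ℕ, ¬ p ∣ u → ¬ p ∣ v → ¬ p ∣ u * v := by
        intro u v hu hv h
        rcases (Nat.Prime.dvd_mul hp).1 h with h | h
        · exact hu h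
        · exact hv h
      rcases hf' with rfl | rfl | rfl | rfl | rfl
      · exact nd _ _ hp210 (nd _ _ hnc1 hnc2)
      · exact nd _ _ hp210 (nd _ _ hnab hnc2)
      · exact nd _ _ hp210 (nd _ _ (nd _ _ hnb hnc2) hnc1a)
      · exact nd _ _ hp210 (nd _ _ (nd _ _ hnab hnr) hnc1)
      · exact nd _ _ hp210 (nd _ _ (nd _ _ (nd _ _ hnb hnr) hnc1) hnc2a)
  -- the parameters
  have hq1 : 1 ≤ q := by omega
  have hqC3 : 0 < q ^ C3 := pow_pos (by omega) _
  set T := x / q ^ C3 with hT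
  have hT1 : q ^ C1 ≤ T := by
    rw [hT, Nat.le_div_iff_mul_le hqC3, ← pow_add]
    exact (Nat.pow_le_pow_right hq1 (by omega)).trans hx
  have hTpos : 1 ≤ T := le_trans (Nat.one_le_pow _ _ (by omega)) hT1
  have hTx : T * q ^ C3 ≤ x := Nat.div_mul_le_self _ _
  have hxT : x < 2 * T * q ^ C3 := by
    have h1 : x < q ^ C3 * (T + 1) := Nat.lt_mul_div_succ x hqC3
    calc x < q ^ C3 * (T + 1) := h1
      _ ≤ q ^ C3 * (2 * T) := Nat.mul_le_mul_left _ (by omega)
      _ = 2 * T * q ^ C3 := by ring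
  have hcount := hsv q (by omega) F hFcard hF2 T hT1
  -- the forms as functions
  set Mf : ℕ → ℕ := fun t => 210 * (c1 * c2) * t + m0 with hMf
  set Lf : ℕ → ℕ := fun t => 210 * (a * b * c2) * t + l0 with hLf
  set L2 : ℕ → ℕ := fun t => 210 * (a * b * r * c1) * t + l1 with hL2
  have hm0pos : 1 ≤ m0 := by
    rcases Nat.eq_zero_or_pos m0 with h | h
    · exact absurd (by rw [h]; exact dvd_zero 2) (he6 2 Nat.prime_two (by norm_num)).1
    · exact h
  have hl0pos : 1 ≤ l0 := by
    rcases Nat.eq_zero_or_pos l0 with h | h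
    · rw [h, mul_zero] at hl0
      omega
    · exact h
  have hl1pos : 1 ≤ l1 := by
    rcases Nat.eq_zero_or_pos l1 with h | h
    · rw [h, mul_zero] at hl1
      omega
    · exact h
  have hcL : ∀ t, c1 * Lf t = a * b * Mf t + 1 := by
    intro t
    simp only [hMf, hLf]
    rw [mul_add, ← hl0]; ring
  have hcL2 : ∀ t, c2 * L2 t = a * b * (r * Mf t) + 1 := by
    intro t
    simp only [hMf, hL2]
    rw [mul_add, hl1r]; ring
  have hLpos : ∀ t, 1 ≤ Lf t := fun t => by simp only [hLf]; omega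
  have hL2pos : ∀ t, 1 ≤ L2 t := fun t => by simp only [hL2]; omega
  have hMpos : ∀ t, 1 ≤ Mf t := fun t => by simp only [hMf]; omega
  have haq : a ≤ q := by
    have : a * 1 ≤ a * b := Nat.mul_le_mul_left _ hb1
    omega
  have hbq : b ≤ q := by
    have : 1 * b ≤ a * b := Nat.mul_le_mul_right _ ha1
    omega
  have habq : a * b ≤ q := by omega
  -- sizes
  set QQ := q * q ^ C2 with hQQ
  have hqC2 : q ≤ QQ := Nat.le_mul_of_pos_right q (pow_pos (by omega) _)
  have hqC2' : q ^ C2 ≤ QQ := Nat.le_mul_of_pos_left _ (by omega)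
  have hMle : ∀ t, t < 2 * T → Mf t ≤ 630 * (QQ * QQ) * T := by
    intro t ht
    simp only [hMf]
    calc 210 * (c1 * c2) * t + m0 ≤ 210 * (c1 * c2) * (2 * T) + 210 * (c1 * c2) :=
          Nat.add_le_add (Nat.mul_le_mul_left _ ht.le) hm0lt.le
      _ = (420 * T + 210) * (c1 * c2) := by ring
      _ ≤ (630 * T) * (QQ * QQ) := Nat.mul_le_mul (by omega)
          (Nat.mul_le_mul (hc1q.trans hqC2') (hc2q.trans hqC2'))
      _ = 630 * (QQ * QQ) * T := by ring
  have hgen : ∀ (c L : ℕ) (t : ℕ), c ≤ QQ → 1 ≤ c → t < 2 * T → c * L ≤ a * b * (r * Mf t) + 1 →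
      (c + a) * (L + b * (r * Mf t)) ≤ x := by
    intro c L t hc hc1 ht hL
    have hM := hMle t ht
    have h1 : L ≤ 3 * (q * q) * Mf t := by
      calc L ≤ c * L := Nat.le_mul_of_pos_left _ (by omega)
        _ ≤ a * b * (r * Mf t) + 1 := hL
        _ ≤ q * (2 * q * Mf t) + q * q * Mf t := by
            refine Nat.add_le_add (Nat.mul_le_mul habq (Nat.mul_le_mul_right _ hr2q)) ?_
            exact Nat.mul_pos (Nat.mul_pos (by omega) (by omega)) (hMpos t)
        _ = 3 * (q * q) * Mf t := by ring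
    have h2 : b * (r * Mf t) ≤ 2 * (q * q) * Mf t := by
      calc b * (r * Mf t) ≤ q * (2 * q * Mf t) :=
            Nat.mul_le_mul hbq (Nat.mul_le_mul_right _ hr2q)
        _ = 2 * (q * q) * Mf t := by ring
    calc (c + a) * (L + b * (r * Mf t)) ≤ (2 * QQ) * (5 * (q * q) * Mf t) := by
          refine Nat.mul_le_mul (by omega) ?_
          calc L + b * (r * Mf t) ≤ 3 * (q * q) * Mf t + 2 * (q * q) * Mf t := Nat.add_le_add h1 h2
            _ = 5 * (q * q) * Mf t := by ring
      _ ≤ (2 * QQ) * (5 * (q * q) * (630 * (QQ * QQ) * T)) :=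
          Nat.mul_le_mul_left _ (Nat.mul_le_mul_left _ hM)
      _ = 6300 * (q * q * (QQ * QQ * QQ)) * T := by ring
      _ ≤ (q * q) * (q * q * (QQ * QQ * QQ)) * T := by
          refine Nat.mul_le_mul_right _ (Nat.mul_le_mul_right _ ?_)
          have h6000 : 6000 ≤ q := by omega
          nlinarith
      _ = q ^ (3 * C2 + 7) * T := by rw [hQQ]; ring
      _ ≤ q ^ C3 * T := Nat.mul_le_mul_right _ (Nat.pow_le_pow_right hq1 (by omega))
      _ = T * q ^ C3 := by ring
      _ ≤ x := hTx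
  have hbig1 : ∀ t, t < 2 * T → (c1 + a) * (Lf t + b * Mf t) ≤ x := by
    intro t ht
    have hMr : Mf t ≤ r * Mf t := Nat.le_mul_of_pos_left _ (by omega)
    refine le_trans (Nat.mul_le_mul_left _ (Nat.add_le_add_left (Nat.mul_le_mul_left _ hMr) _))
      (hgen c1 (Lf t) t (hc1q.trans hqC2') (by omega) ht ?_)
    rw [hcL]
    exact Nat.add_le_add_right (Nat.mul_le_mul_left _ hMr) _
  have hbig2 : ∀ t, t < 2 * T → (c2 + a) * (L2 t + b * (r * Mf t)) ≤ x := by
    intro t ht
    exact hgen c2 (L2 t) t (hc2q.trans hqC2') (by omega) ht (hcL2 t).le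
  -- the good values of `t`
  set G := (Ico T (2 * T)).filter (fun t => ∀ f ∈ F, Rough q (f.1 * t + f.2)) with hG
  set S' := goodSet2 S e q x with hS'
  set nn : Fin 6 → ℕ → ℕ := ![fun t => c1 * Lf t, fun t => (c1 + a) * Lf t,
    fun t => c1 * (Lf t + b * Mf t), fun t => c2 * L2 t, fun t => (c2 + a) * L2 t,
    fun t => c2 * (L2 t + b * (r * Mf t))] with hnn
  have hmonoL : StrictMono Lf := by
    intro s t hst
    simp only [hLf]
    have : 210 * (a * b * c2) * s < 210 * (a * b * c2) * t :=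
      Nat.mul_lt_mul_of_pos_left hst (by positivity)
    omega
  have hmonoL2 : StrictMono L2 := by
    intro s t hst
    simp only [hL2]
    have : 210 * (a * b * r * c1) * s < 210 * (a * b * r * c1) * t :=
      Nat.mul_lt_mul_of_pos_left hst (by positivity)
    omega
  have hmonoM : StrictMono Mf := by
    intro s t hst
    simp only [hMf]
    have : 210 * (c1 * c2) * s < 210 * (c1 * c2) * t :=
      Nat.mul_lt_mul_of_pos_left hst (by positivity)
    omega
  have hinj : ∀ i : Fin 6, Function.Injective (nn i) := by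
    intro i
    have h0 : StrictMono (nn i) := by
      intro s t hst
      have hL := hmonoL hst
      have hL2' := hmonoL2 hst
      have hM := hmonoM hst
      fin_cases i
      · exact Nat.mul_lt_mul_of_pos_left hL (by omega)
      · exact Nat.mul_lt_mul_of_pos_left hL (by omega)
      · exact Nat.mul_lt_mul_of_pos_left
          (add_lt_add_of_lt_of_le hL (Nat.mul_le_mul_left _ hM.le)) (by omega)
      · exact Nat.mul_lt_mul_of_pos_left hL2' (by omega)
      · exact Nat.mul_lt_mul_of_pos_left hL2' (by omega)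
      · exact Nat.mul_lt_mul_of_pos_left
          (add_lt_add_of_lt_of_le hL2' (Nat.mul_le_mul_left _ (Nat.mul_le_mul_left _ hM.le)))
          (by omega)
    exact h0.injective
  have hex : ∀ t ∈ G, ∃ i : Fin 6, nn i t ∈ S' := by
    intro t ht
    rw [hG, Finset.mem_filter, Finset.mem_Ico] at ht
    have q1' := ht.2 (210 * (c1 * c2), m0) (by simp [hF])
    have q2' := ht.2 (210 * (a * b * c2), l0) (by simp [hF])
    have q3' := ht.2 (210 * (b * c2 * (a + c1)), l0 + b * m0) (by simp [hF])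
    have q4' := ht.2 (210 * (a * b * r * c1), l1) (by simp [hF])
    have q5' := ht.2 (210 * (b * r * c1 * (a + c2)), l1 + b * (r * m0)) (by simp [hF])
    have ht2 := ht.1.2
    have e3 : Lf t + b * Mf t = 210 * (b * c2 * (a + c1)) * t + (l0 + b * m0) := by
      simp only [hMf, hLf]; ring
    have e5 : L2 t + b * (r * Mf t) =
        210 * (b * r * c1 * (a + c2)) * t + (l1 + b * (r * m0)) := by
      simp only [hMf, hL2]; ring
    simp only at q1' q2' q3' q4' q5'
    rw [← e3] at q3'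
    rw [← e5] at q5'
    by_cases hs : lam (Mf t) = e
    · rcases triple_mem hS1 hS2 hS3 (hLpos t) (hMpos t) (by omega) (hcL t) r1 r1a q2' q1' q3' lc1
        he (Or.inr ⟨lc1a, hs⟩) (hbig1 t ht2) with h | h | h
      · exact ⟨0, h⟩
      · exact ⟨1, h⟩
      · exact ⟨2, h⟩
    · have hs2 : lam (r * Mf t) = e := by
        rw [lam_mul (by omega) (by have := hMpos t; omega), lr]
        rcases lam_or (Mf t) with h | h
        · rcases he with h' | h'
          · exact absurd (by rw [h, h']) hs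
          · rw [h, h']; norm_num
        · rcases he with h' | h'
          · rw [h, h']; norm_num
          · exact absurd (by rw [h, h']) hs
      rcases triple_mem hS1 hS2 hS3 (hL2pos t) (Nat.mul_pos (by omega) (hMpos t)) (by omega)
        (hcL2 t) r2 r2a q4' (rough_mul hrr q1') q5' lc2 he (Or.inr ⟨lc2a, hs2⟩) (hbig2 t ht2)
        with h | h | h
      · exact ⟨3, h⟩
      · exact ⟨4, h⟩
      · exact ⟨5, h⟩
  have hG6 : G.card ≤ 6 * S'.card := count_six nn hinj hex
  calc x ≤ 2 * T * q ^ C3 := hxT.le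
    _ ≤ 2 * (q * (6 * S'.card)) * q ^ C3 := by
        refine Nat.mul_le_mul_right _ (Nat.mul_le_mul_left _ ?_)
        exact hcount.trans (Nat.mul_le_mul_left _ hG6)
    _ = 12 * (q * q ^ C3 * S'.card) := by ring
    _ ≤ q * (q * q ^ C3 * S'.card) := Nat.mul_le_mul_right _ (by omega)
    _ = q ^ (C3 + 2) * S'.card := by ring
    _ ≤ q ^ (C1 + C3 + 2) * S'.card :=
        Nat.mul_le_mul_right _ (Nat.pow_le_pow_right hq1 (by omega))

end Pool.Agent.Lib.MP81c197.OP
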