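import Pool.Agent.Lib.MP_81c197_nt.OP.CoreA
import Pool.Agent.Lib.MP_81c197_nt.OP.CoreB

/-!
# MP_81c197_nt, OP: the theorem
-/

set_option autoImplicit false

namespace Pool.Agent.Lib.MP81c197.OP

open Finset
open scoped Classical
open Pool.Agent.Lib.MP3efbeb.Odd
open Pool.Agent.Lib.MP81c197

lemma rough_of_succ {z q n : ℕ} (h : Rough (z + 1) n) (hq : q ≤ z) : Rough q n := fun p hp hd => by
  have := h p hp hd
  omega

theorem main_core (a b : ℕ) (ha : 2 ∣ a) (hb : 6 ∣ b) (ha1 : 1 ≤ a) (hb1 : 1 ≤ b)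
    (hsm : ∀ p : ℕ, p.Prime → p ∣ a * b → p ≤ 3) (S : Finset ℕ) (hS1 : a * b ∈ S) (hS2 : a ∈ S)
    (hS3 : b ∈ S) : ∃ C q0 : ℕ, ∀ q : ℕ, q0 ≤ q → ∀ e : ℤ, e = 1 ∨ e = -1 → ∀ x : ℕ, q ^ C ≤ x →
      x ≤ q ^ C * (goodSet2 S e q x).card := by
  obtain ⟨C0, hc⟩ := exists_c a ha
  set C2 := (C0 + 2) * C0 + C0 with hC2
  have hab1 : 1 ≤ a * b := Nat.mul_pos ha1 hb1
  obtain ⟨CA, qA, hA⟩ := core_a (a * b * 210) C2 (by omega)
  obtain ⟨CB, qB, hB⟩ := core_b (a * b) C2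
  refine ⟨CA + CB, qA + qB + 2, ?_⟩
  intro q hq e he x hx
  have hq1 : 1 ≤ q := by omega
  obtain ⟨c1, hc12, hc1q, r1, r1a, lc1⟩ := hc q (by omega)
  set z2 := q ^ (C0 + 2) with hz2
  have hz2q : 2 * q ≤ z2 := by
    calc 2 * q ≤ q * q := Nat.mul_le_mul_right _ (by omega)
      _ = q ^ 2 := by ring
      _ ≤ q ^ (C0 + 2) := Nat.pow_le_pow_right hq1 (by omega)
  obtain ⟨c2, hc22, hc2q, r2, r2a, lc2⟩ := hc z2 (by omega)
  have hc1z : c1 ≤ z2 := hc1q.trans (Nat.pow_le_pow_right hq1 (by omega))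
  have hc1C : c1 ≤ q ^ C2 := hc1q.trans (Nat.pow_le_pow_right hq1 (by omega))
  have hc2C : c2 ≤ q ^ C2 := by
    refine hc2q.trans ?_
    rw [hz2, ← pow_mul]
    exact Nat.pow_le_pow_right hq1 (by omega)
  have hcop : Nat.Coprime c1 c2 := by
    refine Nat.coprime_of_dvd ?_
    intro p hp h1 h2
    have h3 := r2 p hp h2
    have h4 := Nat.le_of_dvd (by omega) h1
    omega
  have toA : ∀ c : ℕ, 2 ≤ c → c ≤ q ^ C2 → Rough q c → Rough q (c + a) → lam c = -1 →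
      lam (c + a) = -1 → x ≤ q ^ (CA + CB) * (goodSet2 S e q x).card := by
    intro c h2 hC hr hra hl hla
    refine (hA q (by omega) S a b c ha hb ha1 hb1 hsm dvd_rfl hS1 hS2 hS3 h2 hC hr hra hl hla e he x
      ((Nat.pow_le_pow_right hq1 (by omega)).trans hx)).trans
      (Nat.mul_le_mul_right _ (Nat.pow_le_pow_right hq1 (by omega)))
  rcases lam_or (c1 + a) with h1 | h1
  · rcases lam_or (c2 + a) with h2 | h2
    · refine (hB q (by omega) S a b c1 c2 ha hb ha1 hb1 hsm le_rfl hS1 hS2 hS3 hc12 hc1C hc22 hc2C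
        hcop ?_ (rough_of_succ r1 le_rfl) (rough_of_succ r2 (by omega)) (rough_of_succ r1a le_rfl)
        (rough_of_succ r2a (by omega)) lc1 lc2 h1 h2 e he x
        ((Nat.pow_le_pow_right hq1 (by omega)).trans hx)).trans
        (Nat.mul_le_mul_right _ (Nat.pow_le_pow_right hq1 (by omega)))
      intro p hp hd
      have := r2 p hp hd
      omega
    · exact toA c2 hc22 hc2C (rough_of_succ r2 (by omega)) (rough_of_succ r2a (by omega)) lc2 h2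
  · exact toA c1 hc12 hc1C (rough_of_succ r1 le_rfl) (rough_of_succ r1a le_rfl) lc1 h1

lemma smooth23 (u v p : ℕ) (hp : p.Prime) (huv : p ∣ 2 ^ u * 3 ^ v) : p ≤ 3 := by
  rcases (Nat.Prime.dvd_mul hp).1 huv with h | h
  · have := Nat.le_of_dvd (by norm_num) (hp.dvd_of_dvd_pow h)
    omega
  · exact Nat.le_of_dvd (by norm_num) (hp.dvd_of_dvd_pow h)

lemma six_dvd (k l : ℕ) (hk : 1 ≤ k) (hl : 1 ≤ l) : 6 ∣ 2 ^ k * 3 ^ l := by
  have : (6 : ℕ) = 2 * 3 := by norm_num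
  rw [this]
  exact Nat.mul_dvd_mul (dvd_pow_self 2 (by omega)) (dvd_pow_self 3 (by omega))

theorem main_sets (i j k l : ℕ) (hi : 1 ≤ i) (hk : 1 ≤ k) (hjl : 1 ≤ j + l) :
    ∃ C q0 : ℕ, ∀ q : ℕ, q0 ≤ q → ∀ e : ℤ, e = 1 ∨ e = -1 → ∀ x : ℕ, q ^ C ≤ x →
      x ≤ q ^ C * (goodSet2 {2 ^ i * 3 ^ j, 2 ^ k * 3 ^ l, 2 ^ (i + k) * 3 ^ (j + l)} e q x).card := by
  have e1 : 2 ^ i * 3 ^ j * (2 ^ k * 3 ^ l) = 2 ^ (i + k) * 3 ^ (j + l) := by
    rw [pow_add, pow_add]; ring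
  have pos : ∀ u v : ℕ, 1 ≤ 2 ^ u * 3 ^ v := fun u v => Nat.one_le_iff_ne_zero.2 (by positivity)
  rcases Nat.eq_zero_or_pos l with hl | hl
  · have hj : 1 ≤ j := by omega
    refine main_core (2 ^ k * 3 ^ l) (2 ^ i * 3 ^ j) ((dvd_pow_self 2 (by omega)).mul_right _)
      (six_dvd i j hi hj) (pos k l) (pos i j) ?_ _ ?_ (by simp) (by simp)
    · intro p hp h
      rw [mul_comm (2 ^ k * 3 ^ l), e1] at h
      exact smooth23 _ _ p hp h
    · rw [mul_comm (2 ^ k * 3 ^ l), e1]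
      simp
  · refine main_core (2 ^ i * 3 ^ j) (2 ^ k * 3 ^ l) ((dvd_pow_self 2 (by omega)).mul_right _)
      (six_dvd k l hk hl) (pos i j) (pos k l) ?_ _ ?_ (by simp) (by simp)
    · intro p hp h
      rw [e1] at h
      exact smooth23 _ _ p hp h
    · rw [e1]
      simp

lemma lam_parity {n : ℕ} {s : ℕ} (h : lam n = (-1) ^ s) : n.primeFactorsList.length % 2 = s % 2 := by
  unfold lam at h
  rcases Nat.even_or_odd s with hs | hs <;>
    rcases Nat.even_or_odd n.primeFactorsList.length with hn | hn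
  · rw [Nat.even_iff.1 hs, Nat.even_iff.1 hn]
  · rw [hs.neg_one_pow, hn.neg_one_pow] at h
    norm_num at h
  · rw [hs.neg_one_pow, hn.neg_one_pow] at h
    norm_num at h
  · rw [Nat.odd_iff.1 hs, Nat.odd_iff.1 hn]

theorem main (i j k l : ℕ) (hi : 1 ≤ i) (hk : 1 ≤ k) (hjl : 1 ≤ j + l) (s : ℕ) :
    ∃ C : ℕ, ∀ z : ℕ, 2 ≤ z → ∀ x : ℕ, z ^ C ≤ x → x ≤ z ^ C * ((Icc 1 x).filter
      (fun n => ∃ A ∈ ({2 ^ i * 3 ^ j, 2 ^ k * 3 ^ l, 2 ^ (i + k) * 3 ^ (j + l)} : Finset ℕ),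
        ∃ m : ℕ, 1 ≤ m ∧ n = A * m + 1 ∧ (∀ p : ℕ, p.Prime → p ∣ n * m → z < p) ∧
          n.primeFactorsList.length % 2 = s % 2 ∧ m.primeFactorsList.length % 2 = s % 2)).card := by
  obtain ⟨C, q0, hcore⟩ := main_sets i j k l hi hk hjl
  refine ⟨(q0 + 3) * C, ?_⟩
  intro z hz x hx
  set q := z + q0 + 1 with hq
  have hqz : q ≤ z ^ (q0 + 3) := by
    have h1 : q0 + 2 < 2 ^ (q0 + 2) := Nat.lt_two_pow_self
    have h2 : 2 ^ (q0 + 2) ≤ z ^ (q0 + 2) := Nat.pow_le_pow_left hz _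
    calc q ≤ z * (q0 + 2) := by rw [hq]; nlinarith
      _ ≤ z * z ^ (q0 + 2) := Nat.mul_le_mul_left _ (by omega)
      _ = z ^ (q0 + 3) := by ring
  have hqC : q ^ C ≤ z ^ ((q0 + 3) * C) := by
    rw [pow_mul]
    exact Nat.pow_le_pow_left hqz C
  refine (hcore q (by omega) ((-1) ^ s) (neg_one_pow_eq_or ℤ s) x (hqC.trans hx)).trans
    (Nat.mul_le_mul hqC (Finset.card_le_card ?_))
  intro n hn
  obtain ⟨hn1, B, hB, m, hm, hnm, hrn, hrm, ln, lm⟩ := Finset.mem_filter.1 hn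
  refine Finset.mem_filter.2 ⟨hn1, B, hB, m, hm, hnm, ?_, lam_parity ln, lam_parity lm⟩
  intro p hp hd
  have := rough_mul hrn hrm p hp hd
  omega

end Pool.Agent.Lib.MP81c197.OP
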