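import Pool.Agent.Lib.MP_81c197_nt.OP.Res

/-!
# MP_81c197_nt, OP: the argument

`c`, `c + a` rough, `λ(c) = -1`. For rough `L` with `c L = 1 + a b M` and `N = L + b M`:
`c L = (a b) M + 1`, `(c + a) L = a N + 1`, `c N = b ((c + a) M) + 1`; in one of the three pairs both signs are
`e` if `λ(c + a) = -1`, `λ(L) = -e`, and also if `λ(c + a) = 1`, `λ(M) = e`. In the first case this is applied to
`L` and to `r L`, in the second case to `M` and to `r M`, `r ≡ 1` prime.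
-/

set_option autoImplicit false

namespace Pool.Agent.Lib.MP81c197.OP

open Finset
open scoped Classical
open Pool.Agent.Lib.MP3efbeb.Odd
open Pool.Agent.Lib.MP81c197

/-- the numbers `n = B m + 1 ≤ x`, `B ∈ S`, with `n m` rough and `λ(n) = λ(m) = e` -/
noncomputable def goodSet2 (S : Finset ℕ) (e : ℤ) (q x : ℕ) : Finset ℕ :=
  (Icc 1 x).filter (fun n => ∃ B ∈ S, ∃ m : ℕ, 1 ≤ m ∧ n = B * m + 1 ∧
    Rough q n ∧ Rough q m ∧ lam n = e ∧ lam m = e)

lemma p_dvd_210 {p : ℕ} (hp : p.Prime) (h : p ≤ 10) : p ∣ 210 := by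
  interval_cases p <;> revert hp <;> norm_num

lemma not_p_dvd_210 {p : ℕ} (hp : p.Prime) (h : 10 < p) : ¬ p ∣ 210 := by
  intro hd
  have h1 : p ∣ 2 * (3 * (5 * 7)) := by simpa using hd
  rcases (Nat.Prime.dvd_mul hp).1 h1 with h | h
  · have := Nat.le_of_dvd (by norm_num) h
    omega
  · rcases (Nat.Prime.dvd_mul hp).1 h with h | h
    · have := Nat.le_of_dvd (by norm_num) h
      omega
    · rcases (Nat.Prime.dvd_mul hp).1 h with h | h
      · have := Nat.le_of_dvd (by norm_num) h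
        omega
      · have := Nat.le_of_dvd (by norm_num) h
        omega

lemma cop210 {q c : ℕ} (hq : 10 < q) (hc : Rough q c) : Nat.Coprime 210 c := by
  refine Nat.coprime_of_dvd ?_
  intro p hp h1 h2
  have h3 := hc p hp h2
  exact not_p_dvd_210 hp (by omega) h1

/-- a residue class -/
lemma exists_inv (u c : ℕ) (hc2 : 2 ≤ c) (hcop : Nat.Coprime u c) :
    ∃ y : ℕ, ∀ m : ℕ, m % c = y % c → c ∣ 1 + u * m := by
  obtain ⟨r, -, hr⟩ := Nat.exists_mul_mod_eq_one_of_coprime hcop (by omega : 1 < c)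
  refine ⟨r * (c - 1), ?_⟩
  intro m hm
  have h1 : u * m ≡ c - 1 [MOD c] := by
    have h2 : u * m ≡ u * (r * (c - 1)) [MOD c] := Nat.ModEq.mul_left _ hm
    have h3 : u * r ≡ 1 [MOD c] := by
      unfold Nat.ModEq
      rw [hr, Nat.mod_eq_of_lt (by omega : 1 < c)]
    have h4 : u * (r * (c - 1)) ≡ 1 * (c - 1) [MOD c] := by
      have := Nat.ModEq.mul_right (c - 1) h3
      rwa [mul_assoc u r (c - 1)] at this
    rw [one_mul] at h4
    exact h2.trans h4
  have h5 : 1 + u * m ≡ 1 + (c - 1) [MOD c] := Nat.ModEq.add_left 1 h1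
  have h6 : 1 + (c - 1) = c := by omega
  rw [h6] at h5
  exact (Nat.modEq_zero_iff_dvd).1 (h5.trans (by unfold Nat.ModEq; simp))

/-- the start values: `c l₀ = 1 + a b m₀`, `m₀ ≡ e (mod 210)` -/
lemma exists_start (a b c e : ℕ) (hc2 : 2 ≤ c) (hcop : Nat.Coprime 210 c)
    (hcopab : Nat.Coprime (a * b) c) :
    ∃ m0 l0 : ℕ, m0 < 210 * c ∧ m0 % 210 = e % 210 ∧ 1 + a * b * m0 = c * l0 := by
  obtain ⟨y, hy⟩ := exists_inv (a * b) c hc2 hcopab
  obtain ⟨m00, hm0e', hm0c'⟩ := Nat.chineseRemainder hcop e y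
  set m0 := m00 % (210 * c) with hm0
  have h30c : 0 < 210 * c := by omega
  have hm0lt : m0 < 210 * c := Nat.mod_lt _ h30c
  have hm0e : m0 % 210 = e % 210 := by
    rw [hm0, Nat.mod_mul_right_mod]
    exact hm0e'
  have hm0c : m0 % c = y % c := by
    rw [hm0, Nat.mod_mul_left_mod]
    exact hm0c'
  obtain ⟨l0, hl0⟩ := hy m0 hm0c
  exact ⟨m0, l0, hm0lt, hm0e, hl0⟩

/-- the start values for two constants -/
lemma exists_start2 (u1 u2 c1 c2 e : ℕ) (h1 : 2 ≤ c1) (h2 : 2 ≤ c2) (hcop1 : Nat.Coprime 210 c1)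
    (hcop2 : Nat.Coprime 210 c2) (hcop : Nat.Coprime c1 c2) (hu1 : Nat.Coprime u1 c1)
    (hu2 : Nat.Coprime u2 c2) :
    ∃ m0 l0 l1 : ℕ, m0 < 210 * (c1 * c2) ∧ m0 % 210 = e % 210 ∧ 1 + u1 * m0 = c1 * l0 ∧
      1 + u2 * m0 = c2 * l1 := by
  obtain ⟨y1, hy1⟩ := exists_inv u1 c1 h1 hu1
  obtain ⟨y2, hy2⟩ := exists_inv u2 c2 h2 hu2
  obtain ⟨m1, g1, g2⟩ := Nat.chineseRemainder hcop1 e y1
  obtain ⟨m00, g3, g4⟩ := Nat.chineseRemainder (Nat.Coprime.mul_left hcop2 hcop) m1 y2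
  set m0 := m00 % (210 * (c1 * c2)) with hm0
  have hpos : 0 < 210 * (c1 * c2) := by positivity
  have hm0lt : m0 < 210 * (c1 * c2) := Nat.mod_lt _ hpos
  have e210 : m0 ≡ e [MOD 210] := by
    have a1 : m0 ≡ m00 [MOD 210] := by
      rw [hm0]
      exact (Nat.mod_modEq _ _).of_mul_right _
    have a2 : m00 ≡ m1 [MOD 210] := g3.of_mul_right _
    exact (a1.trans a2).trans g1
  have ec1 : m0 ≡ y1 [MOD c1] := by
    have a1 : m0 ≡ m00 [MOD c1] := by
      rw [hm0]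
      exact ((Nat.mod_modEq _ _).of_mul_left 210).of_mul_right _
    have a2 : m00 ≡ m1 [MOD c1] := g3.of_mul_left _
    exact (a1.trans a2).trans g2
  have ec2 : m0 ≡ y2 [MOD c2] := by
    have a1 : m0 ≡ m00 [MOD c2] := by
      rw [hm0]
      exact ((Nat.mod_modEq _ _).of_mul_left 210).of_mul_left _
    exact a1.trans g4
  obtain ⟨l0, hl0⟩ := hy1 m0 ec1
  obtain ⟨l1, hl1⟩ := hy2 m0 ec2
  exact ⟨m0, l0, l1, hm0lt, e210, hl0, hl1⟩

/-- the three pairs -/
lemma triple_mem {S : Finset ℕ} {a b c L M : ℕ} {e : ℤ} {q x : ℕ} (hS1 : a * b ∈ S) (hS2 : a ∈ S)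
    (hS3 : b ∈ S) (hL1 : 1 ≤ L) (hM1 : 1 ≤ M) (hc1 : 1 ≤ c) (hid : c * L = a * b * M + 1)
    (rc : Rough q c) (rca : Rough q (c + a)) (rL : Rough q L) (rM : Rough q M)
    (rN : Rough q (L + b * M)) (lc : lam c = -1) (he : e = 1 ∨ e = -1)
    (hs : (lam (c + a) = -1 ∧ lam L = -e) ∨ (lam (c + a) = 1 ∧ lam M = e))
    (hx : (c + a) * (L + b * M) ≤ x) :
    c * L ∈ goodSet2 S e q x ∨ (c + a) * L ∈ goodSet2 S e q x ∨
      c * (L + b * M) ∈ goodSet2 S e q x := by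
  have hid2 : (c + a) * L = a * (L + b * M) + 1 := by
    rw [add_mul, hid]; ring
  have hid3 : c * (L + b * M) = b * ((c + a) * M) + 1 := by
    rw [mul_add, hid]; ring
  have hLN : L ≤ L + b * M := Nat.le_add_right _ _
  rcases sign_pair (c := c) (d := c + a) (L := L) (M := M) (N := L + b * M) (by omega) (by omega)
    (by omega) (by omega) (by omega) lc he hs with h | h | h
  · left
    refine Finset.mem_filter.2 ⟨Finset.mem_Icc.2 ⟨Nat.mul_pos (by omega) hL1, ?_⟩, ?_⟩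
    · exact (Nat.mul_le_mul (Nat.le_add_right c a) hLN).trans hx
    · exact ⟨a * b, hS1, M, hM1, hid, rough_mul rc rL, rM, h.1, h.2⟩
  · right; left
    refine Finset.mem_filter.2 ⟨Finset.mem_Icc.2 ⟨Nat.mul_pos (by omega) hL1, ?_⟩, ?_⟩
    · exact (Nat.mul_le_mul le_rfl hLN).trans hx
    · exact ⟨a, hS2, L + b * M, by omega, hid2, rough_mul rca rL, rN, h.1, h.2⟩
  · right; right
    refine Finset.mem_filter.2 ⟨Finset.mem_Icc.2 ⟨Nat.mul_pos (by omega) (by omega), ?_⟩, ?_⟩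
    · exact (Nat.mul_le_mul (Nat.le_add_right c a) le_rfl).trans hx
    · exact ⟨b, hS3, (c + a) * M, Nat.mul_pos (by omega) hM1, hid3, rough_mul rc rN,
        rough_mul rca rM, h.1, h.2⟩

/-- the pigeonhole for six functions -/
lemma count_six {S' G : Finset ℕ} (nn : Fin 6 → ℕ → ℕ) (hinj : ∀ i, Function.Injective (nn i))
    (hex : ∀ t ∈ G, ∃ i, nn i t ∈ S') : G.card ≤ 6 * S'.card := by
  have hsub : G ⊆ (Finset.univ : Finset (Fin 6)).biUnion
      (fun i => G.filter (fun t => nn i t ∈ S')) := by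
    intro t ht
    obtain ⟨i, hi⟩ := hex t ht
    exact Finset.mem_biUnion.2 ⟨i, Finset.mem_univ _, Finset.mem_filter.2 ⟨ht, hi⟩⟩
  calc G.card ≤ _ := Finset.card_le_card hsub
    _ ≤ ∑ i : Fin 6, (G.filter (fun t => nn i t ∈ S')).card := Finset.card_biUnion_le
    _ ≤ ∑ _i : Fin 6, S'.card := by
        refine Finset.sum_le_sum ?_
        intro i _
        refine Finset.card_le_card_of_injOn (nn i) ?_ ?_
        · intro t ht
          exact (Finset.mem_filter.1 ht).2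
        · exact (hinj i).injOn
    _ = 6 * S'.card := by simp

end Pool.Agent.Lib.MP81c197.OP
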