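import Pool.Agent.Lib.MP_81c197_nt.Three

/-!
# MP_81c197_nt, OP: residues modulo `210`, signs, constants
-/

set_option autoImplicit false

namespace Pool.Agent.Lib.MP81c197.OP

open Finset
open Pool.Agent.Lib.MP3efbeb.Odd
open Pool.Agent.Lib.MP81c197

lemma res5 : ∀ u v w : Fin 5, ∃ e : Fin 5, (e : ℕ) % 5 ≠ 0 ∧ (1 + (u : ℕ) * e) % 5 ≠ 0 ∧
    (1 + (v : ℕ) * e) % 5 ≠ 0 ∧ (1 + (w : ℕ) * e) % 5 ≠ 0 := by
  decide

set_option maxRecDepth 10000 in
lemma res7 : ∀ u v w : Fin 7, ∃ e : Fin 7, (e : ℕ) % 7 ≠ 0 ∧ (1 + (u : ℕ) * e) % 7 ≠ 0 ∧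
    (1 + (v : ℕ) * e) % 7 ≠ 0 ∧ (1 + (w : ℕ) * e) % 7 ≠ 0 := by
  decide

lemma p2357 {p : ℕ} (hp : p.Prime) (h : p ≤ 10) : p = 2 ∨ p = 3 ∨ p = 5 ∨ p = 7 := by
  interval_cases p <;> simp at hp ⊢ <;> revert hp <;> norm_num

/-- a unit `m` modulo `p` with `1 + u m` a unit modulo `p` -/
lemma unit_of_res {p u m e : ℕ} (hm : m % p = e) (h : (1 + u % p * e) % p ≠ 0) : ¬ p ∣ 1 + u * m := by
  intro hd
  apply h
  rw [← hm]
  have h0 := Nat.mod_eq_zero_of_dvd hd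
  rw [← h0]
  simp [Nat.add_mod, Nat.mul_mod]

/-- existence of the residue of `M` modulo `210` -/
lemma exists_e210 (u v w : ℕ) (hu : 6 ∣ u) (hv : 6 ∣ v) (hw : 6 ∣ w) :
    ∃ e : ℕ, ∀ m : ℕ, m % 210 = e % 210 → ∀ p : ℕ, p.Prime → p ≤ 10 →
      ¬ p ∣ m ∧ ¬ p ∣ 1 + u * m ∧ ¬ p ∣ 1 + v * m ∧ ¬ p ∣ 1 + w * m := by
  obtain ⟨⟨e5, he5⟩, h50, h5u, h5v, h5w⟩ := res5 ⟨u % 5, Nat.mod_lt _ (by norm_num)⟩
    ⟨v % 5, Nat.mod_lt _ (by norm_num)⟩ ⟨w % 5, Nat.mod_lt _ (by norm_num)⟩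
  obtain ⟨⟨e7, he7⟩, h70, h7u, h7v, h7w⟩ := res7 ⟨u % 7, Nat.mod_lt _ (by norm_num)⟩
    ⟨v % 7, Nat.mod_lt _ (by norm_num)⟩ ⟨w % 7, Nat.mod_lt _ (by norm_num)⟩
  simp only at h50 h5u h5v h5w h70 h7u h7v h7w
  obtain ⟨f, hf6, hf5⟩ := Nat.chineseRemainder (by norm_num : Nat.Coprime 6 5) 1 e5
  obtain ⟨e, he30, he7'⟩ := Nat.chineseRemainder (by norm_num : Nat.Coprime 30 7) f e7
  refine ⟨e, ?_⟩
  intro m hm p hp hp10
  have g30 : e % 30 = f % 30 := he30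
  have g7 : e % 7 = e7 % 7 := he7'
  have g6 : f % 6 = 1 % 6 := hf6
  have g5 : f % 5 = e5 % 5 := hf5
  have hm6 : m % 6 = 1 := by omega
  have hm5 : m % 5 = e5 := by omega
  have hm7 : m % 7 = e7 := by omega
  have small : ∀ p' : ℕ, p' ∣ 6 → 1 < p' → ∀ u' : ℕ, 6 ∣ u' → ¬ p' ∣ 1 + u' * m := by
    intro p' hp' hp1 u' hu' hd
    have h1 : p' ∣ u' * m := (hp'.trans hu').mul_right _
    have h2 := (Nat.dvd_add_left h1).1 hd
    have := Nat.dvd_one.1 h2
    omega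
  rcases p2357 hp hp10 with rfl | rfl | rfl | rfl
  · refine ⟨by omega, small 2 (by norm_num) (by norm_num) u hu,
      small 2 (by norm_num) (by norm_num) v hv, small 2 (by norm_num) (by norm_num) w hw⟩
  · refine ⟨by omega, small 3 (by norm_num) (by norm_num) u hu,
      small 3 (by norm_num) (by norm_num) v hv, small 3 (by norm_num) (by norm_num) w hw⟩
  · refine ⟨?_, unit_of_res hm5 h5u, unit_of_res hm5 h5v, unit_of_res hm5 h5w⟩
    intro h
    apply h50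
    rw [← hm5, Nat.mod_mod]
    exact Nat.mod_eq_zero_of_dvd h
  · refine ⟨?_, unit_of_res hm7 h7u, unit_of_res hm7 h7v, unit_of_res hm7 h7w⟩
    intro h
    apply h70
    rw [← hm7, Nat.mod_mod]
    exact Nat.mod_eq_zero_of_dvd h

/-- if `λ(c) = -1` and (`λ(d) = -1`, `λ(L) = -e`, or `λ(d) = 1`, `λ(M) = e`), then one of the three pairs has
both signs `e` -/
lemma sign_pair {c d L M N : ℕ} (hc : c ≠ 0) (hd : d ≠ 0) (hL : L ≠ 0) (hM : M ≠ 0) (hN : N ≠ 0)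
    (lc : lam c = -1) {e : ℤ} (he : e = 1 ∨ e = -1)
    (h : (lam d = -1 ∧ lam L = -e) ∨ (lam d = 1 ∧ lam M = e)) :
    (lam (c * L) = e ∧ lam M = e) ∨ (lam (d * L) = e ∧ lam N = e) ∨
      (lam (c * N) = e ∧ lam (d * M) = e) := by
  rw [lam_mul hc hL, lam_mul hd hL, lam_mul hc hN, lam_mul hd hM, lc]
  rcases h with ⟨h1, h2⟩ | ⟨h1, h2⟩
  · rw [h1, h2]
    rcases he with rfl | rfl <;> rcases lam_or M with h4 | h4 <;> rcases lam_or N with h5 | h5 <;>
      rw [h4, h5] <;> norm_num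
  · rw [h1, h2]
    rcases he with rfl | rfl <;> rcases lam_or L with h4 | h4 <;> rcases lam_or N with h5 | h5 <;>
      rw [h4, h5] <;> norm_num

section

open scoped Classical

/-- rough `c`, `c + a` with `λ(c) = -1` -/
lemma exists_c (a : ℕ) (ha : 2 ∣ a) : ∃ C : ℕ, ∀ z : ℕ, 2 ≤ z → ∃ c : ℕ, 2 ≤ c ∧ c ≤ z ^ C ∧
    Rough (z + 1) c ∧ Rough (z + 1) (c + a) ∧ lam c = -1 := by
  have hadm : Admissible {0, a} := by
    intro p hp
    rcases hp.eq_two_or_odd with rfl | hodd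
    · refine ⟨1, ?_⟩
      intro h hh
      simp only [Finset.mem_insert, Finset.mem_singleton] at hh
      rcases hh with rfl | rfl <;> omega
    · have hp3 : 3 ≤ p := by
        have := hp.two_le
        omega
      by_contra hcon
      push Not at hcon
      -- the residues `0, 1, 2`
      obtain ⟨h0, hh0, d0⟩ := hcon 0
      obtain ⟨h1, hh1, d1⟩ := hcon 1
      obtain ⟨h2, hh2, d2⟩ := hcon 2
      have key : ∀ i j h : ℕ, i < j → j < 3 → p ∣ i + h → p ∣ j + h → False := by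
        intro i j h hij hj hi' hj'
        have h3 : p ∣ (j + h) - (i + h) := Nat.dvd_sub hj' hi'
        have h4 : (j + h) - (i + h) = j - i := by omega
        rw [h4] at h3
        have := Nat.le_of_dvd (by omega) h3
        omega
      simp only [Finset.mem_insert, Finset.mem_singleton] at hh0 hh1 hh2
      rcases hh0 with rfl | rfl <;> rcases hh1 with rfl | rfl <;> rcases hh2 with rfl | rfl <;>
        first
          | exact key 0 1 _ (by norm_num) (by norm_num) d0 d1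
          | exact key 0 2 _ (by norm_num) (by norm_num) d0 d2
          | exact key 1 2 _ (by norm_num) (by norm_num) d1 d2
  obtain ⟨C, hC⟩ := main_fin {0, a} {0} hadm (by simp) (by simp) 1
  refine ⟨C, ?_⟩
  intro z hz
  have h1 := hC z hz (z ^ C) le_rfl
  have hpos : 0 < z ^ C := pow_pos (by omega) _
  have hne : ((Icc 1 (z ^ C)).filter (fun n =>
      (∀ p : ℕ, p.Prime → p ∣ ∏ h ∈ ({0, a} : Finset ℕ), (n + h) → z < p) ∧
      (∏ h ∈ ({0} : Finset ℕ), (n + h)).primeFactorsList.length % 2 = 1 % 2)).Nonempty := by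
    rw [← Finset.card_pos]
    by_contra hcon
    push Not at hcon
    rw [Nat.le_zero.1 hcon, mul_zero] at h1
    omega
  obtain ⟨c, hc⟩ := hne
  rw [Finset.mem_filter, Finset.mem_Icc] at hc
  obtain ⟨⟨hc1, hcz⟩, hcr, hcl⟩ := hc
  rw [Finset.prod_singleton, add_zero] at hcl
  have lc : lam c = -1 := by
    unfold lam
    exact (Nat.odd_iff.2 (by simpa using hcl)).neg_one_pow
  refine ⟨c, ?_, hcz, ?_, ?_, lc⟩
  · rcases Nat.lt_or_ge 1 c with h | h
    · exact h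
    · exfalso
      have : c = 1 := by omega
      rw [this] at lc
      unfold lam at lc
      simp at lc
  · intro p hp hd
    refine hcr p hp (Dvd.dvd.trans (by simpa using hd) (Finset.dvd_prod_of_mem _
      (by simp : (0 : ℕ) ∈ ({0, a} : Finset ℕ))))
  · intro p hp hd
    refine hcr p hp (Dvd.dvd.trans hd (Finset.dvd_prod_of_mem (fun h => c + h)
      (by simp : a ∈ ({0, a} : Finset ℕ))))

end

end Pool.Agent.Lib.MP81c197.OP
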